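import Pool.Agent.N368.TS.Prp
import Pool.Agent.N368.TS.Wel

/-!
# Koblitz's counts, jointly for several elliptic curves and at `s` consecutive primes, with square-root error against the
finite-field model, for almost all members of families with `r` parameters along thin sequences of parameter vectors

From Mathlib: `⌊y⌋`: the integer part of `y`; `Nat.nth Nat.Prime k`: the prime with the index `k`, starting with `k = 0`;
`MvPolynomial.eval t f`: the value of the polynomial `f` at `t`; `Fin.castAdd m j` and `Fin.natAdd m j`: `j` and `m + j`.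

Method: the vectors `(⌊P₁(n)⌋, ..., ⌊P_r(n)⌋)`, `N < n ≤ 2N`, are uniformly distributed in the residue classes modulo all
integers up to a power of `N`, with a power saving (`Pool.Agent.N666.VE`, `Pool.Agent.N666.TM`, exponential sums and a
truncated Fourier series for the integer parts). The high moments (of order `log N / log K`) of sums of functions of the
residues modulo coprime integers (`Pool.Agent.N368.TS`) follow `Pool.Agent.N193.PS.Pe2` and `Pool.Agent.TH869.SQ` (where
there is one parameter), for functions of integer vectors.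
-/

set_option autoImplicit false

namespace Pool.Agent.Results.MP_b89fd0_nt.ThinParameterFamilies

open Finset

/-- The function `∑ t ∈ F, a t * x ^ t` has the leading exponent `c`, which is positive and not an integer, with a
positive coefficient. -/
def Admissible (F : Finset ℝ) (a : ℝ → ℝ) (c : ℝ) : Prop :=
  c ∈ F ∧ (∀ t ∈ F, t ≤ c) ∧ 0 < c ∧ (∀ m : ℕ, c ≠ m) ∧ 0 < a c

/-- The vector of the integer parts of the values at `n`. -/
noncomputable def values {r : ℕ} (F : Fin r → Finset ℝ) (a : Fin r → ℝ → ℝ) (n : ℕ) : Fin r → ℤ :=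
  fun l => ⌊∑ t ∈ F l, a l t * (n : ℝ) ^ t⌋

/-- The number of the solutions `(x, y)` of `y² = x³ + A x + B` modulo `p`. -/
def points (p : ℕ) (A B : ℤ) : ℕ :=
  ((range p ×ˢ range p).filter
    (fun xy : ℕ × ℕ => (p : ℤ) ∣ (xy.2 : ℤ) ^ 2 - ((xy.1 : ℤ) ^ 3 + A * xy.1 + B))).card

/-- The curve `E : y² = x³ + A x + B` has good reduction at `p ≠ 2`, and `#E(F_p) = points p A B + 1` is `u` times a
prime number: this is the event which is counted in Koblitz's conjecture. -/
def PrimeQuotient (u p : ℕ) (A B : ℤ) : Prop :=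
  ¬ (p : ℤ) ∣ 2 * (4 * A ^ 3 + 27 * B ^ 2) ∧ ∃ q : ℕ, q.Prime ∧ points p A B + 1 = u * q

open Classical in
/-- The number of the `k < K` in `D` such that for all `j` and all `i < s` the number of the points of the curve
`y² = x³ + A j x + B j` at the prime `p` with the number `k + i` (the primes are numbered from `0`) is `u i j` times a
prime number, and `p` does not divide `2 (4 (A j)³ + 27 (B j)²)`. For `s = m = 1` this is `π_{E,u}(x)` if `K = π(x)` and
`D = ℕ` (up to the prime `2`). -/
noncomputable def koblitzCount {s m : ℕ} (A B : Fin m → ℤ) (u : Fin s → Fin m → ℕ) (D : Set ℕ) (K : ℕ) : ℕ :=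
  ((range K).filter (fun k => k ∈ D ∧ ∀ (i : Fin s) (j : Fin m),
    PrimeQuotient (u i j) (Nat.nth Nat.Prime (k + i)) (A j) (B j))).card

open Classical in
/-- The proportion of the vectors of residues `t` modulo `p` for which the curves `y² = x³ + A j(t) x + B j(t)` have the
property, with `u j`, for all `j`. -/
noncomputable def proportion {r m : ℕ} (A B : Fin m → MvPolynomial (Fin r) ℤ) (p : ℕ) (u : Fin m → ℕ) : ℝ :=
  ((Fintype.piFinset (fun _ : Fin r => range p)).filter (fun t => ∀ j,
    PrimeQuotient (u j) p (MvPolynomial.eval (fun l => (t l : ℤ)) (A j))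
      (MvPolynomial.eval (fun l => (t l : ℤ)) (B j)))).card / (p : ℝ) ^ r

open Classical in
/-- The expected number: the sum over the `k < K` in `D` of the product of the proportions at the `s` primes. -/
noncomputable def model {r s m : ℕ} (A B : Fin m → MvPolynomial (Fin r) ℤ) (u : Fin s → Fin m → ℕ) (D : Set ℕ)
    (K : ℕ) : ℝ :=
  ∑ k ∈ (range K).filter (fun k => k ∈ D), ∏ i : Fin s, proportion A B (Nat.nth Nat.Prime (k + i)) (u i)

open Classical in
/-- The proportion of the pairs `(A, B)` of residues modulo `p` such that `y² = x³ + A x + B` has the property with `u`. -/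
noncomputable def pairProportion (p u : ℕ) : ℝ :=
  ((range p ×ˢ range p).filter (fun z : ℕ × ℕ => PrimeQuotient u p z.1 z.2)).card / (p : ℝ) ^ 2

open Classical in
/-- The sum over the `k < K` in `D` of the products of the proportions of the pairs of coefficients. -/
noncomputable def pairModel {s m : ℕ} (u : Fin s → Fin m → ℕ) (D : Set ℕ) (K : ℕ) : ℝ :=
  ∑ k ∈ (range K).filter (fun k => k ∈ D), ∏ i : Fin s, ∏ j : Fin m, pairProportion (Nat.nth Nat.Prime (k + i)) (u i j)

theorem points_congr (p : ℕ) {A A' B B' : ℤ} (hA : (p : ℤ) ∣ A - A') (hB : (p : ℤ) ∣ B - B') :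
    points p A B = points p A' B' := by
  unfold points
  congr 1
  apply filter_congr
  intro xy _
  have h : (p : ℤ) ∣ ((xy.2 : ℤ) ^ 2 - ((xy.1 : ℤ) ^ 3 + A * xy.1 + B)) -
      ((xy.2 : ℤ) ^ 2 - ((xy.1 : ℤ) ^ 3 + A' * xy.1 + B')) := by
    have e : ((xy.2 : ℤ) ^ 2 - ((xy.1 : ℤ) ^ 3 + A * xy.1 + B)) -
      ((xy.2 : ℤ) ^ 2 - ((xy.1 : ℤ) ^ 3 + A' * xy.1 + B')) = -((A - A') * xy.1 + (B - B')) := by ring
    rw [e]
    exact (dvd_add (hA.mul_right _) hB).neg_right
  exact (dvd_iff_dvd_of_dvd_sub h)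

theorem disc_congr (p : ℕ) {A A' B B' : ℤ} (hA : (p : ℤ) ∣ A - A') (hB : (p : ℤ) ∣ B - B') :
    (p : ℤ) ∣ 2 * (4 * A ^ 3 + 27 * B ^ 2) ↔ (p : ℤ) ∣ 2 * (4 * A' ^ 3 + 27 * B' ^ 2) := by
  have h : (p : ℤ) ∣ 2 * (4 * A ^ 3 + 27 * B ^ 2) - 2 * (4 * A' ^ 3 + 27 * B' ^ 2) := by
    have e : 2 * (4 * A ^ 3 + 27 * B ^ 2) - 2 * (4 * A' ^ 3 + 27 * B' ^ 2) =
      (A - A') * (8 * (A ^ 2 + A * A' + A' ^ 2)) + (B - B') * (54 * (B + B')) := by ring
    rw [e]
    exact dvd_add (hA.mul_right _) (hB.mul_right _)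
  exact dvd_iff_dvd_of_dvd_sub h

theorem quotient_congr (u p : ℕ) (A A' B B' : ℤ) (hA : (p : ℤ) ∣ A - A') (hB : (p : ℤ) ∣ B - B') :
    PrimeQuotient u p A B ↔ PrimeQuotient u p A' B' := by
  unfold PrimeQuotient
  rw [points_congr p hA hB, disc_congr p hA hB]

theorem eval_congr {r : ℕ} (f : MvPolynomial (Fin r) ℤ) (p : ℕ) {c d : Fin r → ℤ} (h : ∀ l, (p : ℤ) ∣ c l - d l) :
    (p : ℤ) ∣ MvPolynomial.eval c f - MvPolynomial.eval d f := by
  induction f using MvPolynomial.induction_on with
  | C z => simp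
  | add f g hf hg =>
    rw [map_add, map_add]
    have e : MvPolynomial.eval c f + MvPolynomial.eval c g - (MvPolynomial.eval d f + MvPolynomial.eval d g) =
        (MvPolynomial.eval c f - MvPolynomial.eval d f) + (MvPolynomial.eval c g - MvPolynomial.eval d g) := by ring
    rw [e]
    exact dvd_add hf hg
  | mul_X f i hf =>
    rw [map_mul, map_mul, MvPolynomial.eval_X, MvPolynomial.eval_X]
    have e : MvPolynomial.eval c f * c i - MvPolynomial.eval d f * d i =
        (MvPolynomial.eval c f - MvPolynomial.eval d f) * c i + MvPolynomial.eval d f * (c i - d i) := by ring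
    rw [e]
    exact dvd_add (hf.mul_right _) ((h i).mul_left _)

/-- the range of the quotients -/
theorem quotient_range (u X p : ℕ) (A B : ℤ) (hpX : p ≤ X) (h : PrimeQuotient u p A B) : u ∈ range (X ^ 2 + 2) := by
  obtain ⟨_, q, hq, h1⟩ := h
  have h2 : points p A B ≤ p ^ 2 := by
    unfold points
    refine (card_filter_le _ _).trans ?_
    rw [card_product, card_range, pow_two]
  have h3 : u ≤ u * q := Nat.le_mul_of_pos_right _ hq.pos
  have h4 : p ^ 2 ≤ X ^ 2 := Nat.pow_le_pow_left hpX 2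
  rw [mem_range]
  omega

theorem range_card (X : ℕ) (hX : 1 ≤ X) : (range (X ^ 2 + 2)).card ≤ 3 * X ^ 3 := by
  rw [card_range]
  have h1 : 1 ≤ X ^ 2 := Nat.one_le_pow _ _ hX
  have h2 : X ^ 2 ≤ X ^ 3 := Nat.pow_le_pow_right hX (by norm_num)
  omega

open Classical in
/-- Let `P₁, ..., P_r`, `r ≥ 1`, be generalised polynomials (finite sums of real powers with real coefficients) whose leading
exponents are positive, not integers and distinct, with positive leading coefficients; let `s ≥ 1`, `m` and `δ > 0` be given.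
There are `κ > 0` and `C`, and `C'(M)` for the matrices `M`, such that for all `N ≥ 1` and every set `W` of at most `N ^ κ`
sets of indices, with `t = (⌊P₁(n)⌋, ..., ⌊P_r(n)⌋)`:

(1) for all polynomials `A₁, B₁, ..., A_m, B_m ∈ ℤ[T₁, ..., T_r]`, all `N < n ≤ 2 N` with at most `C N ^ (1 - κ)` exceptions
satisfy, for all `D ∈ W`, all `K ≤ N ^ κ` and all integers `u i j ≥ 0`: the number of the `k < K` in `D` for which the curves
`y² = x³ + A_j(t) x + B_j(t)` have good reduction at the primes `p` with the numbers `k, ..., k + s - 1` and their numbers of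
points modulo these primes are `u i j` times prime numbers is the expected number, the sum of the products of the
proportions for the vectors of residues modulo these primes, up to `C K ^ (1 / 2 + δ) (1 + log N) ^ (1 / 2)`;

(2) if the coefficients are `2 m` affine forms with integer coefficients whose linear parts (the rows of `M`) are linearly
independent, then the same holds with the proportions of all pairs of coefficients modulo the primes, with the constant
`C'(M)` in the bound, for all constant terms. -/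
theorem result (r m s : ℕ) (hr : 1 ≤ r) (hs : 1 ≤ s) (F : Fin r → Finset ℝ) (a : Fin r → ℝ → ℝ) (c : Fin r → ℝ)
    (h : ∀ l, Admissible (F l) (a l) (c l)) (hc : Function.Injective c) (δ : ℝ) (hδ : 0 < δ) :
    ∃ κ C : ℝ, 0 < κ ∧ 0 < C ∧
      (∀ (A B : Fin m → MvPolynomial (Fin r) ℤ) (N : ℕ), 1 ≤ N → ∀ W : Finset (Set ℕ), (W.card : ℝ) ≤ (N : ℝ) ^ κ →
        (((Ioc N (2 * N)).filter (fun n : ℕ => ¬ ∀ D ∈ W, ∀ K : ℕ, (K : ℝ) ≤ (N : ℝ) ^ κ →
          ∀ u : Fin s → Fin m → ℕ,
            |(koblitzCount (fun j => MvPolynomial.eval (values F a n) (A j))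
              (fun j => MvPolynomial.eval (values F a n) (B j)) u D K : ℝ) - model A B u D K| ≤
                C * ((K : ℝ) ^ (1 / 2 + δ) * √(1 + Real.log N)))).card : ℝ) ≤ C * (N : ℝ) ^ (1 - κ)) ∧
      (∀ M : Fin (m + m) → Fin r → ℤ, LinearIndependent ℤ M → ∃ C' : ℝ, 0 < C' ∧
        ∀ (c₀ : Fin (m + m) → ℤ) (N : ℕ), 1 ≤ N → ∀ W : Finset (Set ℕ), (W.card : ℝ) ≤ (N : ℝ) ^ κ →
        (((Ioc N (2 * N)).filter (fun n : ℕ => ¬ ∀ D ∈ W, ∀ K : ℕ, (K : ℝ) ≤ (N : ℝ) ^ κ →
          ∀ u : Fin s → Fin m → ℕ,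
            |(koblitzCount (fun j => c₀ (Fin.castAdd m j) + ∑ l, M (Fin.castAdd m j) l * values F a n l)
              (fun j => c₀ (Fin.natAdd m j) + ∑ l, M (Fin.natAdd m j) l * values F a n l) u D K : ℝ) -
                pairModel u D K| ≤
                C' * ((K : ℝ) ^ (1 / 2 + δ) * √(1 + Real.log N)))).card : ℝ) ≤ C * (N : ℝ) ^ (1 - κ)) := by
  have : Nonempty (Fin r) := ⟨⟨0, hr⟩⟩
  obtain ⟨⟨ρ, σ, C₀, hv⟩, -⟩ := Pool.Agent.N368.TS.fl_pev h hc
  obtain ⟨κ₁, C₁, h1, h1', h1'', H1⟩ := Pool.Agent.N368.TS.props hv m s hs δ hδ ℕ PrimeQuotient quotient_congr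
    (fun X => range (X ^ 2 + 2)) 3 range_card (fun u X p A B _ hpX hP => quotient_range u X p A B hpX hP)
  obtain ⟨κ₂, C₂, h2, h2', h2'', H2⟩ := Pool.Agent.N368.TS.props_lin hv m s hs δ hδ ℕ PrimeQuotient quotient_congr
    (fun X => range (X ^ 2 + 2)) 3 range_card (fun u X p A B _ hpX hP => quotient_range u X p A B hpX hP)
  have hm0 : 0 < min κ₁ κ₂ := lt_min h1 h2
  refine ⟨min κ₁ κ₂, max C₁ C₂, hm0, lt_of_lt_of_le (by linarith) (le_max_left _ _), ?_, ?_⟩
  · intro A B N hN W hW
    have hNr : (1 : ℝ) ≤ N := by exact_mod_cast hN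
    have hκ : ∀ x : ℝ, x ≤ (N : ℝ) ^ min κ₁ κ₂ → x ≤ (N : ℝ) ^ κ₁ := fun x hx =>
      hx.trans (Real.rpow_le_rpow_of_exponent_le hNr (min_le_left _ _))
    obtain ⟨E, hE1, hE2⟩ := H1 (fun j t => MvPolynomial.eval t (A j)) (fun j t => MvPolynomial.eval t (B j))
      (fun p j c d hcd => eval_congr _ p hcd) (fun p j c d hcd => eval_congr _ p hcd) N hN W (hκ _ hW)
    have hE3 : (E.card : ℝ) ≤ max C₁ C₂ * (N : ℝ) ^ (1 - min κ₁ κ₂) := by
      refine hE1.trans (mul_le_mul (le_max_left _ _) ?_ (by positivity) (by linarith [le_max_left C₁ C₂]))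
      exact Real.rpow_le_rpow_of_exponent_le hNr (by linarith [min_le_left κ₁ κ₂])
    refine le_trans (Nat.cast_le.2 (card_le_card fun n hn => ?_)) hE3
    rw [mem_filter] at hn
    by_contra hnE
    apply hn.2
    intro D hD K hK u
    have h4 := hE2 n hn.1 hnE D hD K (hκ _ hK) u
    have e1 : (koblitzCount (fun j => MvPolynomial.eval (values F a n) (A j))
        (fun j => MvPolynomial.eval (values F a n) (B j)) u D K : ℝ) =
        ((((range K).filter (fun k => k ∈ D ∧ ∀ (i : Fin s) (j : Fin m),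
          PrimeQuotient (u i j) (Pool.Agent.TH869.SQ.pr (k + i)) (MvPolynomial.eval (values F a n) (A j))
            (MvPolynomial.eval (values F a n) (B j)))).card : ℕ) : ℝ) := rfl
    have e2 : model A B u D K = ∑ k ∈ (range K).filter (fun k => k ∈ D), ∏ i : Fin s,
        Pool.Agent.N368.TS.av (Pool.Agent.TH869.SQ.pr (k + i)) (fun t : Fin r → ℤ =>
          if ∀ j, PrimeQuotient (u i j) (Pool.Agent.TH869.SQ.pr (k + i)) (MvPolynomial.eval t (A j))
            (MvPolynomial.eval t (B j)) then 1 else 0) := by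
      unfold model proportion Pool.Agent.N368.TS.av Pool.Agent.N368.TS.bx Pool.Agent.TH869.SQ.pr
      refine sum_congr rfl fun k _ => prod_congr rfl fun i _ => ?_
      rw [card_filter, Nat.cast_sum, Fintype.card_fin]
      congr 1
      refine sum_congr rfl fun t _ => ?_
      rw [Nat.cast_ite, Nat.cast_one, Nat.cast_zero]
    rw [e1, e2]
    refine h4.trans ?_
    unfold Pool.Agent.TH869.SQ.lam
    exact mul_le_mul_of_nonneg_right (le_max_left _ _) (by positivity)
  · intro M hM
    obtain ⟨C', hC', H3⟩ := H2 M hM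
    refine ⟨C', by linarith, ?_⟩
    intro c₀ N hN W hW
    have hNr : (1 : ℝ) ≤ N := by exact_mod_cast hN
    have hκ : ∀ x : ℝ, x ≤ (N : ℝ) ^ min κ₁ κ₂ → x ≤ (N : ℝ) ^ κ₂ := fun x hx =>
      hx.trans (Real.rpow_le_rpow_of_exponent_le hNr (min_le_right _ _))
    obtain ⟨E, hE1, hE2⟩ := H3 c₀ N hN W (hκ _ hW)
    have hE3 : (E.card : ℝ) ≤ max C₁ C₂ * (N : ℝ) ^ (1 - min κ₁ κ₂) := by
      refine hE1.trans (mul_le_mul (le_max_right _ _) ?_ (by positivity) (by linarith [le_max_left C₁ C₂]))
      exact Real.rpow_le_rpow_of_exponent_le hNr (by linarith [min_le_right κ₁ κ₂])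
    refine le_trans (Nat.cast_le.2 (card_le_card fun n hn => ?_)) hE3
    rw [mem_filter] at hn
    by_contra hnE
    apply hn.2
    intro D hD K hK u
    have h4 := hE2 n hn.1 hnE D hD K (hκ _ hK) u
    exact h4

end Pool.Agent.Results.MP_b89fd0_nt.ThinParameterFamilies
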